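-- module Pool.Agent.Run7.h682.GM.FEK
import Pool.Agent.Run7.h834.GM.Iface
set_option autoImplicit false
namespace Run7.h682.GM
open Filter Topology Run7.h834.GM

theorem t_FEK : S_FEK := by
  intro M K h1 h2
  have hs : Subadditive (fun n => -(M n : ℝ)) := by
    intro m n
    have h3 : (M m : ℝ) + M n ≤ M (m + n) := by exact_mod_cast h2 m n
    simp only
    linarith
  have hb : BddBelow (Set.range fun n : ℕ => -(M n : ℝ) / n) := by
    refine ⟨-(K : ℝ), ?_⟩
    rintro _ ⟨n, rfl⟩
    simp only
    rcases Nat.eq_zero_or_pos n with h | h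
    · subst h
      simp
    · rw [le_div_iff₀ (by exact_mod_cast h)]
      have h3 : (M n : ℝ) ≤ K * n := by exact_mod_cast h1 n
      linarith
  refine ⟨-hs.lim, ?_⟩
  have h3 := (hs.tendsto_lim hb).neg
  refine h3.congr fun n => ?_
  rw [neg_div, neg_neg]

end Run7.h682.GM
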