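-- module Pool.Agent.Run7.h682.GM.LIM
import Pool.Agent.Run7.h834.GM.Iface
set_option autoImplicit false
namespace Run7.h682.GM
open Filter Topology Run7.h834.GM

theorem t_LIM : S_LIM := by
  intro m A h1 h2
  obtain ⟨u, hu⟩ : ∃ u : ℕ → ℝ, ∀ n, u n = (m n : ℝ) / n := ⟨_, fun _ => rfl⟩
  have hue : (fun n : ℕ => (m n : ℝ) / n) = u := funext fun n => (hu n).symm
  rw [hue]
  have hu0 : ∀ n, 0 ≤ u n := fun n => by rw [hu]; positivity
  have hm : ∀ n r, m (n + r) ≤ m n + A * r := by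
    intro n r
    induction r with
    | zero => simp
    | succ r ih =>
      have h3 := h1 (n + r)
      have h4 : n + (r + 1) = n + r + 1 := by omega
      rw [h4, Nat.mul_succ]
      omega
  have hub : ∀ n, u n ≤ m 0 + A := by
    intro n
    rw [hu]
    rcases Nat.eq_zero_or_pos n with h | h
    · subst h
      simp only [Nat.cast_zero, div_zero]
      positivity
    · rw [div_le_iff₀ (by exact_mod_cast h)]
      have h3 := hm 0 n
      rw [zero_add] at h3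
      have h4 : (m n : ℝ) ≤ m 0 + A * n := by exact_mod_cast h3
      have h5 : (1 : ℝ) ≤ n := by exact_mod_cast h
      have h6 : (0 : ℝ) ≤ m 0 := Nat.cast_nonneg _
      nlinarith
  have hb1 : IsBoundedUnder (· ≥ ·) atTop u := isBoundedUnder_of ⟨0, hu0⟩
  have hb2 : IsCoboundedUnder (· ≥ ·) atTop u :=
    IsBoundedUnder.isCoboundedUnder_ge (isBoundedUnder_of ⟨_, hub⟩)
  refine ⟨liminf u atTop, ?_⟩
  obtain ⟨L, hL⟩ : ∃ L, L = liminf u atTop := ⟨_, rfl⟩
  rw [← hL, Metric.tendsto_atTop]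
  intro δ hδ
  have hlow : ∀ᶠ n in atTop, L - δ < u n :=
    eventually_lt_of_lt_liminf (by rw [← hL]; linarith) hb1
  obtain ⟨ε, hε, hεδ⟩ : ∃ ε : ℝ, 0 < ε ∧ 4 * ε = δ := ⟨δ / 4, by linarith, by ring⟩
  obtain ⟨n1, hn1⟩ := h2 ε hε
  have hfr : ∃ᶠ n in atTop, u n < L + ε :=
    frequently_lt_of_liminf_lt hb2 (by rw [← hL]; linarith)
  obtain ⟨n, hun, hn⟩ := (hfr.and_eventually (eventually_ge_atTop (max n1 1))).exists
  have hnn1 : n1 ≤ n := (le_max_left _ _).trans hn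
  have hn0 : 1 ≤ n := (le_max_right _ _).trans hn
  obtain ⟨N1, hN1⟩ := exists_nat_gt ((A : ℝ) * n / ε)
  obtain ⟨N2, hN2⟩ := eventually_atTop.1 hlow
  refine ⟨max (max N1 N2) n, fun N hN => ?_⟩
  have hNN1 : N1 ≤ N := (le_max_left _ _).trans ((le_max_left _ _).trans hN)
  have hNN2 : N2 ≤ N := (le_max_right _ _).trans ((le_max_left _ _).trans hN)
  have hNn : n ≤ N := (le_max_right _ _).trans hN
  rw [Real.dist_eq, abs_lt]
  refine ⟨by linarith [hN2 N hNN2], ?_⟩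
  have hk1 : 1 ≤ N / n := (Nat.one_le_div_iff hn0).2 hNn
  obtain ⟨k, hk⟩ : ∃ k, k = N / n := ⟨_, rfl⟩
  obtain ⟨r, hr⟩ : ∃ r, r = N % n := ⟨_, rfl⟩
  rw [← hk] at hk1
  have hNe : k * n + r = N := by
    rw [hk, hr, Nat.mul_comm]
    exact Nat.div_add_mod N n
  have hrn : r < n := by rw [hr]; exact Nat.mod_lt _ hn0
  have h3 := hm (k * n) r
  rw [hNe] at h3
  have h4 := hn1 n hnn1 k hk1
  have h3' : (m N : ℝ) ≤ m (k * n) + A * r := by exact_mod_cast h3
  have hrn' : (r : ℝ) ≤ n := by exact_mod_cast hrn.le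
  have hA : (0 : ℝ) ≤ A := Nat.cast_nonneg _
  have hn0' : (0 : ℝ) < n := by exact_mod_cast hn0
  have hN0' : (0 : ℝ) < N := by exact_mod_cast lt_of_lt_of_le hn0 hNn
  have hkn : (k : ℝ) * n ≤ N := by
    have h5 : k * n ≤ N := by omega
    exact_mod_cast h5
  have hmn : (m n : ℝ) < (L + ε) * n := by
    rw [hu, div_lt_iff₀ hn0'] at hun
    exact hun
  have hk0 : (0 : ℝ) ≤ k := Nat.cast_nonneg _
  have hLe : 0 ≤ L + ε := (hu0 n).trans hun.le
  have hAn : (A : ℝ) * n < ε * N := by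
    rw [div_lt_iff₀ hε] at hN1
    have h5 : (N1 : ℝ) ≤ N := by exact_mod_cast hNN1
    nlinarith
  have h6 : (m N : ℝ) < (L + 4 * ε) * N := by
    have h7 : (k : ℝ) * m n ≤ (L + ε) * N := by
      calc (k : ℝ) * m n ≤ k * ((L + ε) * n) := mul_le_mul_of_nonneg_left hmn.le hk0
        _ = (L + ε) * (k * n) := by ring
        _ ≤ (L + ε) * N := mul_le_mul_of_nonneg_left hkn hLe
    have h8 : ε * k * n ≤ ε * N := by
      rw [mul_assoc]
      exact mul_le_mul_of_nonneg_left hkn hε.le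
    have h9 : (A : ℝ) * r ≤ A * n := mul_le_mul_of_nonneg_left hrn' hA
    have h10 : 0 < ε * N := mul_pos hε hN0'
    nlinarith
  rw [hu, sub_lt_iff_lt_add, div_lt_iff₀ hN0']
  calc (m N : ℝ) < (L + 4 * ε) * N := h6
    _ = (δ + L) * N := by rw [← hεδ]; ring

end Run7.h682.GM
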